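import Pool.Agent.J4H10.Tw.One

/-!
# The L-functions of the twists of varieties over finite fields
-/

set_option autoImplicit false
set_option linter.unusedSectionVars false
set_option linter.style.haveILetI false

open Polynomial

namespace Pool.Agent.J4H10.Tw

open Pool.Agent.W313.Hyp Pool.Agent.W343.BSD

section phi

theorem exists_phi (ℓ : ℕ) [hℓ : Fact ℓ.Prime] : ∃ (κ : Type) (_ : Field κ) (_ : CharP κ ℓ),
    Nonempty (AI →+* κ) := by
  have hI : Ideal.span {(ℓ : AI)} ≠ ⊤ := by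
    intro h
    rw [Ideal.span_singleton_eq_top] at h
    obtain ⟨z, hz⟩ := h.exists_left_inv
    have h1 : (z : ℂ) * (ℓ : ℂ) = 1 := by
      have := congrArg (fun x : AI => (x : ℂ)) hz
      simpa using this
    have hℓ0 : (ℓ : ℂ) ≠ 0 := by exact_mod_cast hℓ.out.ne_zero
    have h2 : (z : ℂ) = algebraMap ℚ ℂ ((ℓ : ℚ)⁻¹) := by
      rw [map_inv₀, map_natCast]
      exact eq_inv_of_mul_eq_one_left h1
    have h3 : IsIntegral ℤ ((ℓ : ℚ)⁻¹) := by
      have h4 : IsIntegral ℤ (z : ℂ) := z.2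
      rw [h2] at h4
      exact (isIntegral_algebraMap_iff (algebraMap ℚ ℂ).injective).1 h4
    obtain ⟨n, hn⟩ := IsIntegrallyClosed.isIntegral_iff.1 h3
    have h5 : (n : ℚ) * (ℓ : ℚ) = 1 := by
      have : (algebraMap ℤ ℚ) n = (n : ℚ) := rfl
      rw [← this, hn]
      exact inv_mul_cancel₀ (by exact_mod_cast hℓ.out.ne_zero)
    have h6 : n * (ℓ : ℤ) = 1 := by exact_mod_cast h5
    have h7 := Int.isUnit_iff.1 (IsUnit.of_mul_eq_one_right n h6)
    have h8 := hℓ.out.one_lt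
    omega
  obtain ⟨m, hm, hIm⟩ := Ideal.exists_le_maximal _ hI
  letI : Field (AI ⧸ m) := Ideal.Quotient.field m
  have h1 : ((ℓ : ℕ) : AI ⧸ m) = 0 := by
    rw [← map_natCast (Ideal.Quotient.mk m), Ideal.Quotient.eq_zero_iff_mem]
    exact hIm (Ideal.mem_span_singleton_self _)
  have h2 : ringChar (AI ⧸ m) = ℓ := by
    have h3 : ringChar (AI ⧸ m) ∣ ℓ := ringChar.dvd h1
    rcases (Nat.dvd_prime hℓ.out).1 h3 with h4 | h4
    · exact absurd h4 (CharP.ringChar_ne_one)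
    · exact h4
  exact ⟨AI ⧸ m, inferInstance, ringChar.of_eq h2, ⟨Ideal.Quotient.mk m⟩⟩

theorem pow_eq_one_of_root {κ : Type} [Field κ] (ℓ : ℕ) [hℓ : Fact ℓ.Prime] [CharP κ ℓ]
    (f : ℤ[X]) (hf : f.Monic) (b : ℕ) (hb : f.natDegree ≤ b) (y : κ) (hy0 : y ≠ 0)
    (hy : aeval y f = 0) : y ^ (∏ j ∈ Finset.Icc 1 b, (ℓ ^ j - 1)) = 1 := by
  letI : Algebra (ZMod ℓ) κ := ZMod.algebra κ ℓ
  let f' : (ZMod ℓ)[X] := f.map (Int.castRingHom (ZMod ℓ))
  have hf' : f'.Monic := hf.map _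
  have h1 : aeval y f' = 0 := by
    rw [aeval_def, eval₂_map]
    have h2 : (algebraMap (ZMod ℓ) κ).comp (Int.castRingHom (ZMod ℓ)) = algebraMap ℤ κ :=
      RingHom.ext_int _ _
    rw [h2, ← aeval_def]
    exact hy
  have hint : IsIntegral (ZMod ℓ) y := ⟨f', hf', by rw [← aeval_def]; exact h1⟩
  have hirr := minpoly.irreducible hint
  have h2 : minpoly (ZMod ℓ) y ∣ f' := minpoly.dvd _ _ h1
  set j := (minpoly (ZMod ℓ) y).natDegree with hj
  have hj0 : 0 < j := hirr.natDegree_pos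
  have hjb : j ≤ b := (natDegree_le_of_dvd h2 hf'.ne_zero).trans (natDegree_map_le.trans hb)
  have h3 : minpoly (ZMod ℓ) y ∣ X ^ (Nat.card (ZMod ℓ)) ^ j - X :=
    (hirr.natDegree_dvd_iff_dvd_X_pow_card_pow_sub_X).1 (dvd_refl _)
  rw [Nat.card_zmod] at h3
  have h4 : y ^ ℓ ^ j = y := by
    rw [minpoly.dvd_iff, map_sub, map_pow, aeval_X, sub_eq_zero] at h3
    exact h3
  have h5 : y ^ (ℓ ^ j - 1) = 1 := by
    have h6 : 1 ≤ ℓ ^ j := Nat.one_le_pow _ _ hℓ.out.pos
    have h7 : y ^ (ℓ ^ j - 1) * y = 1 * y := by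
      rw [← pow_succ, Nat.sub_add_cancel h6, h4, one_mul]
    exact mul_right_cancel₀ hy0 h7
  obtain ⟨c, hc⟩ := Finset.dvd_prod_of_mem (fun j => ℓ ^ j - 1)
    (Finset.mem_Icc.2 ⟨hj0, hjb⟩ : j ∈ Finset.Icc 1 b)
  rw [hc, pow_mul, h5, one_pow]

end phi

section main

variable {k : Type} [Field k] {ι : Type} [Fintype ι]

/-- The power residue symbol: the value of `χ` at the norm to `k` of the residue of `D` at `P`. -/
noncomputable def symbol (χ : MulChar k ℂ) (D P : k[X]) : ℂ :=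
  χ (Algebra.norm k (AdjoinRoot.mk P D))

/-- The Euler factor at `P`. -/
noncomputable def localFactor (χ : ι → MulChar k ℂ) (β : ι → ℂ) (D P : k[X]) : PowerSeries ℂ :=
  (∏ x, (1 - PowerSeries.C (symbol (χ x) D P) *
    (PowerSeries.C (β x) * PowerSeries.X) ^ P.natDegree))⁻¹

open Classical in
/-- The Euler factor at infinity. -/
noncomputable def infFactor (χ : ι → MulChar k ℂ) (β : ι → ℂ) (D : k[X]) : PowerSeries ℂ :=
  (∏ x, if χ x ^ D.natDegree = 1 then
    (1 - PowerSeries.C (χ x D.leadingCoeff * β x) * PowerSeries.X) else 1)⁻¹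

/-- The L-function. -/
noncomputable def Lfun (χ : ι → MulChar k ℂ) (β : ι → ℂ) (D : k[X]) : PowerSeries ℂ :=
  eulerProd (fun P : MI k => P.1.natDegree) (fun P => localFactor χ β D P.1) * infFactor χ β D

variable [Finite k]

theorem euler_eq (χ : ι → MulChar k ℂ) (hχ : ∀ x, χ x ≠ 1) (β : ι → ℂ) (c : k) (D₀ : k[X])
    (hD : D₀.Monic) (hsq : Squarefree D₀) (hdeg : 0 < D₀.natDegree) :
    eulerProd (fun P : MI k => P.1.natDegree) (fun P => localFactor χ β (C c * D₀) P.1) =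
      ((∏ x, Lp (χ x) c D₀ (β x) : ℂ[X]) : PowerSeries ℂ) := by
  classical
  let h : ι → k[X] → ℂ := fun x g => hf (χ x) c D₀ g * β x ^ g.natDegree
  have hCM : ∀ x, CM (h x) := by
    intro x
    have h1 := hf_CM (χ x) c D₀
    constructor
    · change hf (χ x) c D₀ 1 * β x ^ (1 : k[X]).natDegree = 1
      rw [h1.1, natDegree_one, pow_zero, one_mul]
    · intro g g' hg hg'
      change hf (χ x) c D₀ (g * g') * β x ^ (g * g').natDegree = _
      rw [h1.2 g g' hg hg', hg.natDegree_mul hg', pow_add]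
      change _ = (hf (χ x) c D₀ g * β x ^ g.natDegree) * (hf (χ x) c D₀ g' * β x ^ g'.natDegree)
      ring
  have hfac : ∀ P : MI k, localFactor χ β (C c * D₀) P.1 =
      (∏ x, (1 - PowerSeries.C (h x P.1) * PowerSeries.X ^ P.1.natDegree))⁻¹ := by
    intro P
    unfold localFactor
    congr 1
    refine Finset.prod_congr rfl fun x _ => ?_
    have h1 : symbol (χ x) (C c * D₀) P.1 = hf (χ x) c D₀ P.1 :=
      hf_prime (χ x) c D₀ P.1 hD P.2.1
    rw [h1, mul_pow, ← map_pow, ← mul_assoc, ← map_mul]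
  apply eq_of_mod
  intro n
  rw [PowerSeries.X_pow_dvd_iff]
  intro m hm
  rw [map_sub, sub_eq_zero]
  have hfin := finite_deg_le (F := k) m
  rw [coeff_eulerProd (fun n => finite_deg_le (F := k) n)]
  set A := (finite_deg_le (F := k) m).toFinset with hAdef
  have hA : ∀ P : MI k, P.1.natDegree ≤ m → P ∈ A := fun P hP => by
    rw [hAdef, Set.Finite.mem_toFinset]; exact hP
  have h1 : ∏ P ∈ A, localFactor χ β (C c * D₀) P.1 = ∏ x, GH (h x) A := by
    have h2 : (∏ P ∈ A, ∏ x, (1 - PowerSeries.C (h x P.1) * PowerSeries.X ^ P.1.natDegree)) *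
        ∏ P ∈ A, localFactor χ β (C c * D₀) P.1 = 1 := by
      rw [← Finset.prod_mul_distrib]
      apply Finset.prod_eq_one
      intro P _
      rw [hfac P]
      apply PowerSeries.mul_inv_cancel
      rw [map_prod]
      apply Finset.prod_ne_zero_iff.2
      intro x _
      rw [map_sub, map_mul, map_pow, PowerSeries.constantCoeff_X, map_one,
        zero_pow P.2.2.natDegree_pos.ne', mul_zero, sub_zero]
      exact one_ne_zero
    have h3 : (∏ P ∈ A, ∏ x, (1 - PowerSeries.C (h x P.1) * PowerSeries.X ^ P.1.natDegree)) *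
        ∏ x, GH (h x) A = 1 := by
      rw [Finset.prod_comm, ← Finset.prod_mul_distrib]
      exact Finset.prod_eq_one fun x _ => prod_mul_GH (hCM x) A
    have h4 : IsUnit (∏ P ∈ A, ∏ x,
        (1 - PowerSeries.C (h x P.1) * PowerSeries.X ^ P.1.natDegree : PowerSeries ℂ)) :=
      IsUnit.of_mul_eq_one _ h3
    exact h4.mul_left_cancel (h2.trans h3.symm)
  rw [h1, ← Polynomial.coeToPowerSeries.ringHom_apply,
    map_prod Polynomial.coeToPowerSeries.ringHom]
  have h5 := prod_congr_mod Finset.univ (fun x => GH (h x) A)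
    (fun x => Polynomial.coeToPowerSeries.ringHom (Lp (χ x) c D₀ (β x))) (m + 1) (by
      intro x _
      rw [PowerSeries.X_pow_dvd_iff]
      intro j hj
      rw [map_sub, coeff_GH (h x) A m hA j (by omega), Polynomial.coeToPowerSeries.ringHom_apply,
        coeff_coe, coeff_Lp (χ x) (hχ x) c D₀ hD hsq hdeg, S_twist, sub_self])
  have h6 := PowerSeries.X_pow_dvd_iff.1 h5 m (Nat.lt_succ_self m)
  rwa [map_sub, sub_eq_zero] at h6

theorem inf_eq (ℓ : ℕ) [hℓ : Fact ℓ.Prime] (χ : ι → MulChar k ℂ)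
    (hχ : ∀ x, χ x ≠ 1 ∧ ∃ a, χ x ^ ℓ ^ a = 1) (β : ι → ℂ) (D : k[X])
    (hdeg : Nat.Coprime D.natDegree ℓ) : infFactor χ β D = 1 := by
  unfold infFactor
  rw [Finset.prod_eq_one]
  · rw [PowerSeries.inv_eq_iff_mul_eq_one (by simp), mul_one]
  · intro x _
    rw [if_neg]
    intro h
    obtain ⟨h1, a, ha⟩ := hχ x
    have h2 : orderOf (χ x) ∣ Nat.gcd D.natDegree (ℓ ^ a) :=
      Nat.dvd_gcd (orderOf_dvd_of_pow_eq_one h) (orderOf_dvd_of_pow_eq_one ha)
    rw [(Nat.Coprime.pow_right a hdeg).gcd_eq_one, Nat.dvd_one, orderOf_eq_one_iff] at h2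
    exact h1 h2

theorem main (ℓ : ℕ) [hℓ : Fact ℓ.Prime] (χ : ι → MulChar k ℂ)
    (hχ : ∀ x, χ x ≠ 1 ∧ ∃ a, χ x ^ ℓ ^ a = 1) (w b : ℕ) (β : ι → ℂ)
    (hβ : ∀ x, ‖β x‖ ^ 2 = (Nat.card k : ℝ) ^ w ∧
      ∃ f : ℤ[X], f.Monic ∧ f.natDegree ≤ b ∧ aeval (β x) f = 0)
    (D : k[X]) (hD : Squarefree D) (hdeg : Nat.Coprime D.natDegree ℓ)
    (hfac : ∀ P : k[X], Irreducible P → P ∣ D →
      Nat.Coprime P.natDegree (ℓ * ∏ j ∈ Finset.Icc 1 b, (ℓ ^ j - 1))) (i : ℕ) :
    ∃ G : ℂ[X], Lfun χ β D = (G : PowerSeries ℂ) ∧ G ≠ 0 ∧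
      (Irreducible D → G.eval ((Nat.card k : ℂ) ^ i)⁻¹ ≠ 0) ∧
      ∀ (κ : Type) [Field κ] [CharP κ ℓ] (φ : AI →+* κ),
        G.rootMultiplicity ((Nat.card k : ℂ) ^ i)⁻¹ ≤
          ({P : k[X] | P.Monic ∧ Irreducible P ∧ P ∣ D}.ncard - 1) *
            {x | ∃ z : AI, (z : ℂ) = β x ∧ φ z = 1}.ncard := by
  classical
  have hD0 : D ≠ 0 := hD.ne_zero
  set c := D.leadingCoeff with hc
  have hc0 : c ≠ 0 := leadingCoeff_ne_zero.2 hD0
  set D₀ : k[X] := C c⁻¹ * D with hD₀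
  have hDD : D = C c * D₀ := by
    rw [hD₀, ← mul_assoc, ← C_mul, mul_inv_cancel₀ hc0, C_1, one_mul]
  have hunit : IsUnit (C c : k[X]) := isUnit_C.2 (isUnit_iff_ne_zero.2 hc0)
  have hD₀m : D₀.Monic := by
    rw [hD₀, mul_comm]
    exact monic_mul_leadingCoeff_inv hD0
  have hdvd : ∀ P : k[X], P ∣ D₀ ↔ P ∣ D := by
    intro P
    rw [hDD]
    exact (IsUnit.dvd_mul_left hunit).symm
  have hD₀sq : Squarefree D₀ := hD.squarefree_of_dvd ((hdvd D₀).1 dvd_rfl)
  have hnat : D₀.natDegree = D.natDegree := by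
    rw [hDD, natDegree_C_mul hc0]
  have hdeg0 : 0 < D₀.natDegree := by
    rw [hnat]
    rcases Nat.eq_zero_or_pos D.natDegree with h | h
    · rw [h, Nat.coprime_zero_left] at hdeg
      exact absurd hdeg hℓ.out.one_lt.ne'
    · exact h
  have hset : {P : k[X] | P.Monic ∧ Irreducible P ∧ P ∣ D₀} =
      {P : k[X] | P.Monic ∧ Irreducible P ∧ P ∣ D} := by
    ext P
    exact and_congr_right fun _ => and_congr_right fun _ => hdvd P
  -- the numbers `β x`
  have hβint : ∀ x, IsIntegral ℤ (β x) := by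
    intro x
    obtain ⟨_, f, hf, _, h2⟩ := hβ x
    exact ⟨f, hf, by rw [← aeval_def]; exact h2⟩
  have hβ0 : ∀ x, β x ≠ 0 := by
    intro x h
    have h1 := (hβ x).1
    rw [h, norm_zero, zero_pow two_ne_zero] at h1
    exact (pow_pos (by exact_mod_cast Nat.card_pos : (0 : ℝ) < Nat.card k) w).ne h1
  let βA : ι → AI := fun x => ⟨β x, hβint x⟩
  have hroot : ∀ (κ : Type) [Field κ] [CharP κ ℓ] (φ : AI →+* κ) (x : ι),
      φ (βA x) ^ (∏ j ∈ Finset.Icc 1 b, (ℓ ^ j - 1)) = 1 := by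
    intro κ _ _ φ x
    obtain ⟨h1, f, hf, hfb, h2⟩ := hβ x
    -- the conjugate
    have h3 : IsIntegral ℤ (starRingEnd ℂ (β x)) := by
      refine ⟨f, hf, ?_⟩
      have h4 := congrArg (starRingEnd ℂ) h2
      rw [map_zero, aeval_def, hom_eval₂] at h4
      have h5 : (starRingEnd ℂ).comp (algebraMap ℤ ℂ) = algebraMap ℤ ℂ := RingHom.ext_int _ _
      rw [h5] at h4
      exact h4
    let γ : AI := ⟨starRingEnd ℂ (β x), h3⟩
    have h4 : βA x * γ = ((Nat.card k ^ w : ℕ) : AI) := by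
      apply Subtype.ext
      change β x * starRingEnd ℂ (β x) = (((Nat.card k ^ w : ℕ) : AI) : ℂ)
      rw [Complex.mul_conj, Complex.normSq_eq_norm_sq, h1]
      push_cast
      rfl
    have hy0 : φ (βA x) ≠ 0 := by
      intro h
      have h5 := congrArg φ h4
      rw [map_mul, h, zero_mul, map_natCast] at h5
      have h6 := (CharP.cast_eq_zero_iff κ ℓ _).1 h5.symm
      have h7 := hℓ.out.dvd_of_dvd_pow h6
      -- `ℓ` divides `q - 1`
      obtain ⟨h8, a, ha⟩ := hχ x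
      letI : Fintype k := Fintype.ofFinite k
      have h9 : orderOf (χ x) ∣ ℓ ^ a := orderOf_dvd_of_pow_eq_one ha
      obtain ⟨b', _, h10⟩ := (Nat.dvd_prime_pow hℓ.out).1 h9
      have hb0 : b' ≠ 0 := by
        rintro rfl
        rw [pow_zero, orderOf_eq_one_iff] at h10
        exact h8 h10
      have h11 : ℓ ∣ Fintype.card k - 1 :=
        ((dvd_pow_self ℓ hb0).trans (dvd_of_eq h10.symm)).trans
          (MulChar.orderOf_dvd_card_sub_one _ (χ x))
      rw [Nat.card_eq_fintype_card] at h7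
      have h12 : ℓ ∣ 1 := by
        have h13 := Nat.dvd_sub h7 h11
        have h14 : Fintype.card k - (Fintype.card k - 1) = 1 := by
          have := Fintype.card_pos (α := k)
          omega
        rwa [h14] at h13
      exact hℓ.out.one_lt.ne' (Nat.dvd_one.1 h12)
    refine pow_eq_one_of_root ℓ f hf b hfb _ hy0 ?_
    have h5 : aeval (βA x) f = 0 := by
      apply Subtype.ext
      have h6 : ((aeval (βA x) f : AI) : ℂ) = aeval (β x) f := by
        have := Polynomial.aeval_algHom_apply (integralClosure ℤ ℂ).val (βA x) f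
        exact this.symm
      rw [h6, h2]
      rfl
    have h6 := congrArg φ h5
    rw [map_zero, aeval_def, hom_eval₂] at h6
    have h7 : φ.comp (algebraMap ℤ AI) = algebraMap ℤ κ := RingHom.ext_int _ _
    rw [h7] at h6
    exact h6
  have hLp0 : ∀ x, Lp (χ x) c D₀ (β x) ≠ 0 := fun x =>
    Lp_ne_zero (χ x) (hχ x).1 c D₀ hD₀m hD₀sq hdeg0 (β x)
  have hG0 : (∏ x, Lp (χ x) c D₀ (β x)) ≠ 0 := Finset.prod_ne_zero_iff.2 fun x _ => hLp0 x
  have hrm : ∀ t : ℂ, (∏ x, Lp (χ x) c D₀ (β x)).rootMultiplicity t =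
      ∑ x, (Lp (χ x) c D₀ (β x)).rootMultiplicity t := by
    intro t
    have h2 : ∀ T : Finset ι, (∏ x ∈ T, Lp (χ x) c D₀ (β x)).rootMultiplicity t =
        ∑ x ∈ T, (Lp (χ x) c D₀ (β x)).rootMultiplicity t := by
      intro T
      induction T using Finset.induction_on with
      | empty => simp [rootMultiplicity_eq_zero_iff, IsRoot.def]
      | insert P T hP ih =>
        rw [Finset.prod_insert hP, Finset.sum_insert hP, rootMultiplicity_mul, ih]
        exact mul_ne_zero (hLp0 P) (Finset.prod_ne_zero_iff.2 fun x _ => hLp0 x)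
    exact h2 Finset.univ
  have hbound : ∀ (κ : Type) [Field κ] [CharP κ ℓ] (φ : AI →+* κ),
      (∏ x, Lp (χ x) c D₀ (β x)).rootMultiplicity ((Nat.card k : ℂ) ^ i)⁻¹ ≤
          ({P : k[X] | P.Monic ∧ Irreducible P ∧ P ∣ D}.ncard - 1) *
            {x | ∃ z : AI, (z : ℂ) = β x ∧ φ z = 1}.ncard := by
    intro κ _ _ φ
    rw [hrm]
    have h1 : ∀ x ∈ (Finset.univ : Finset ι),
        (Lp (χ x) c D₀ (β x)).rootMultiplicity ((Nat.card k : ℂ) ^ i)⁻¹ ≤
        if φ (βA x) = 1 then {P : k[X] | P.Monic ∧ Irreducible P ∧ P ∣ D}.ncard - 1 else 0 := by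
      intro x _
      obtain ⟨h2, a, ha⟩ := hχ x
      rw [← hset]
      exact rm_le ℓ φ (χ x) h2 a ha c hc0 D₀ hD₀m hD₀sq hdeg0 _
        (fun P _ hPi hPD => hfac P hPi ((hdvd P).1 hPD)) (βA x) (hβ0 x) (hroot κ φ x) i
    refine (Finset.sum_le_sum h1).trans ?_
    rw [← Finset.sum_filter, Finset.sum_const, smul_eq_mul, mul_comm]
    apply Nat.mul_le_mul_left
    rw [← Set.ncard_coe_finset]
    apply Set.ncard_le_ncard _ (Set.toFinite _)
    intro x hx
    rw [Finset.mem_coe, Finset.mem_filter] at hx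
    exact ⟨βA x, rfl, hx.2⟩
  refine ⟨∏ x, Lp (χ x) c D₀ (β x), ?_, hG0, ?_, fun κ _ _ φ => hbound κ φ⟩
  · unfold Lfun
    rw [inf_eq ℓ χ hχ β D hdeg, mul_one]
    conv_lhs => rw [hDD]
    exact euler_eq χ (fun x => (hχ x).1) β c D₀ hD₀m hD₀sq hdeg0
  · intro hirr
    obtain ⟨κ, hκ1, hκ2, ⟨φ⟩⟩ := exists_phi ℓ
    have h1 := hbound κ φ
    have h2 : {P : k[X] | P.Monic ∧ Irreducible P ∧ P ∣ D} = {D₀} := by
      ext P
      constructor
      · rintro ⟨h3, h4, h5⟩
        exact eq_of_monic_of_associated h3 hD₀m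
          ((h4.associated_of_dvd hirr h5).trans (by
            rw [hDD]
            exact (associated_unit_mul_left D₀ (C c) hunit).symm.symm))
      · rintro rfl
        refine ⟨hD₀m, ?_, (hdvd _).1 dvd_rfl⟩
        rw [hDD, irreducible_isUnit_mul hunit] at hirr
        exact hirr
    rw [h2, Set.ncard_singleton, Nat.sub_self, zero_mul, Nat.le_zero, rootMultiplicity_eq_zero_iff]
      at h1
    intro h3
    exact hG0 (h1 h3)

end main

end Pool.Agent.J4H10.Tw
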