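import Pool.Agent.W313.Hyp.Irr

/-!
# Euler products of completely multiplicative functions of polynomials over a finite field
-/

set_option autoImplicit false
set_option linter.unusedSectionVars false

open PowerSeries

namespace Pool.Agent.J4H10.Tw

open Pool.Agent.W313.Hyp Pool.Agent.W343.BSD

variable {F : Type} [Field F] {R : Type} [CommRing R]

/-- The function `h` is completely multiplicative on monic polynomials. -/
def CM (h : Polynomial F → R) : Prop :=
  h 1 = 1 ∧ ∀ g g' : Polynomial F, g.Monic → g'.Monic → h (g * g') = h g * h g'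

/-- the generating function of `h` on the polynomials with prime factors in `A` -/
noncomputable def GH (h : Polynomial F → R) (A : Finset (MI F)) : PowerSeries R :=
  PowerSeries.mk fun n => ∑ᶠ (g : Polynomial F) (_ : g ∈ SA A n), h g

/-- the sum of the values of `h` at the monic polynomials of degree `n` -/
noncomputable def S (h : Polynomial F → R) (n : ℕ) : R :=
  ∑ᶠ (g : Polynomial F) (_ : g ∈ {g : Polynomial F | g.Monic ∧ g.natDegree = n}), h g

theorem GH_empty {h : Polynomial F → R} (hh : CM h) : GH h (∅ : Finset (MI F)) = 1 := by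
  ext n
  rw [GH, coeff_mk, SA_empty, coeff_one]
  split_ifs with h1
  · rw [finsum_mem_singleton, hh.1]
  · rw [finsum_mem_empty]

theorem GH_insert [Finite F] [DecidableEq (MI F)] {h : Polynomial F → R} (hh : CM h)
    (A : Finset (MI F)) (P : MI F) (hP : P ∉ A) :
    (1 - C (h P.1) * X ^ P.1.natDegree) * GH h (insert P A) = GH h A := by
  ext n
  have hexp : (1 - C (h P.1) * X ^ P.1.natDegree) * GH h (insert P A) =
      GH h (insert P A) - C (h P.1) * (X ^ P.1.natDegree * GH h (insert P A)) := by ring
  rw [hexp, map_sub, coeff_C_mul, coeff_X_pow_mul', GH, GH, coeff_mk, coeff_mk]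
  have hdisj : Disjoint (SA A n) (if P.1.natDegree ≤ n then
      (fun g => P.1 * g) '' SA (insert P A) (n - P.1.natDegree) else ∅) := by
    rw [Set.disjoint_left]
    intro g hg hg'
    split_ifs at hg' with hle
    · obtain ⟨h, _, rfl⟩ := hg'
      exact hP (hg.2 P (Dvd.intro _ rfl))
    · exact hg'
  have hfin : (if P.1.natDegree ≤ n then
      (fun g => P.1 * g) '' SA (insert P A) (n - P.1.natDegree) else ∅ :
        Set (Polynomial F)).Finite := by
    split_ifs
    · exact (SA_finite _ _).image _
    · exact Set.finite_empty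
  rw [SA_insert A P hP n, finsum_mem_union hdisj (SA_finite _ _) hfin]
  split_ifs with hle
  · rw [coeff_mk, finsum_mem_image (mul_right_injective₀ P.2.1.ne_zero).injOn]
    have h1 : ∑ᶠ (g : Polynomial F) (_ : g ∈ SA (insert P A) (n - P.1.natDegree)), h (P.1 * g) =
        h P.1 * ∑ᶠ (g : Polynomial F) (_ : g ∈ SA (insert P A) (n - P.1.natDegree)), h g := by
      rw [finsum_mem_eq_finite_toFinset_sum _ (SA_finite _ _),
        finsum_mem_eq_finite_toFinset_sum _ (SA_finite _ _), Finset.mul_sum]
      refine Finset.sum_congr rfl fun g hg => ?_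
      rw [Set.Finite.mem_toFinset] at hg
      exact hh.2 _ _ P.2.1 hg.1.1
    rw [h1]
    ring
  · rw [finsum_mem_empty, mul_zero, sub_zero, add_zero, coeff_mk]

theorem prod_mul_GH [Finite F] {h : Polynomial F → R} (hh : CM h) (A : Finset (MI F)) :
    (∏ P ∈ A, (1 - C (h P.1) * X ^ P.1.natDegree : PowerSeries R)) * GH h A = 1 := by
  classical
  induction A using Finset.induction_on with
  | empty => rw [Finset.prod_empty, one_mul, GH_empty hh]
  | insert P A hP ih =>
    rw [Finset.prod_insert hP, mul_comm (1 - C (h P.1) * X ^ P.1.natDegree : PowerSeries R),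
      mul_assoc, GH_insert hh A P hP, ih]

theorem coeff_GH [Finite F] (h : Polynomial F → R) (A : Finset (MI F)) (n : ℕ)
    (hA : ∀ P : MI F, P.1.natDegree ≤ n → P ∈ A) (m : ℕ) (hm : m ≤ n) :
    coeff m (GH h A) = S h m := by
  rw [GH, coeff_mk, S]
  have h1 : SA A m = {g : Polynomial F | g.Monic ∧ g.natDegree = m} := by
    ext g
    refine ⟨fun h => h.1, fun h => ⟨h, fun P hP => hA P ?_⟩⟩
    have := Polynomial.natDegree_le_of_dvd hP h.1.ne_zero
    have h2 := h.2
    omega
  rw [h1]

theorem S_one [Finite F] (n : ℕ) : S (fun _ : Polynomial F => (1 : R)) n = (Nat.card F : R) ^ n := by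
  unfold S
  rw [finsum_mem_eq_finite_toFinset_sum _ (finite_mon n), Finset.sum_const, nsmul_eq_mul, mul_one,
    ← Set.ncard_eq_toFinset_card _ (finite_mon n)]
  have h2 : ({g : Polynomial F | g.Monic ∧ g.natDegree = n}).ncard = Nat.card (Mon F n) := rfl
  rw [h2, card_mon]
  push_cast
  rfl

end Pool.Agent.J4H10.Tw
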