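import Pool.Agent.J4H10.Tw.Red

/-!
# The L-function of one character
-/

set_option autoImplicit false
set_option linter.unusedSectionVars false
set_option linter.style.haveILetI false

open Polynomial

namespace Pool.Agent.J4H10.Tw

open Pool.Agent.W313.Hyp Pool.Agent.W343.BSD

/-- the ring of the algebraic integers -/
abbrev AI : Type := integralClosure ℤ ℂ

variable {k : Type} [Field k]

theorem isIntegral_mulChar [Finite k] (χ : MulChar k ℂ) (a : k) : IsIntegral ℤ (χ a) := by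
  classical
  letI : Fintype k := Fintype.ofFinite k
  by_cases ha : a = 0
  · rw [ha, MulChar.map_zero]
    exact isIntegral_zero
  · have h1 : χ a ^ Fintype.card kˣ = 1 := by
      have h2 := MulChar.pow_apply_coe χ (Fintype.card kˣ) (Units.mk0 a ha)
      rw [χ.pow_card_eq_one, MulChar.one_apply_coe] at h2
      exact h2.symm
    refine IsIntegral.of_pow (Fintype.card_pos (α := kˣ)) ?_
    rw [h1]
    exact isIntegral_one

/-- the multiplicative function -/
noncomputable def hf (χ : MulChar k ℂ) (c : k) (D₀ g : k[X]) : ℂ :=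
  χ ((c * (-1) ^ D₀.natDegree) ^ g.natDegree * nrm D₀ g)

theorem hf_CM (χ : MulChar k ℂ) (c : k) (D₀ : k[X]) : CM (hf χ c D₀) := by
  constructor
  · unfold hf
    rw [natDegree_one, pow_zero, one_mul, nrm_one_right, map_one]
  · intro g g' hg hg'
    unfold hf
    rw [hg.natDegree_mul hg', nrm_mul_right, ← map_mul]
    congr 1
    ring

theorem hf_prime (χ : MulChar k ℂ) (c : k) (D₀ P : k[X]) (hD : D₀.Monic) (hP : P.Monic) :
    χ (nrm P (C c * D₀)) = hf χ c D₀ P := by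
  unfold hf
  congr 1
  rw [nrm_mul_right, nrm_C P hP, nrm_comm P D₀ hP hD, mul_pow, ← pow_mul,
    mul_comm P.natDegree D₀.natDegree]
  ring

theorem S_hf_eq_zero [Finite k] (χ : MulChar k ℂ) (hχ : χ ≠ 1) (c : k) (D₀ : k[X])
    (hD : D₀.Monic) (hsq : Squarefree D₀) (hdeg : 0 < D₀.natDegree) (m : ℕ)
    (hm : D₀.natDegree ≤ m) : S (hf χ c D₀) m = 0 := by
  obtain ⟨a, ha⟩ : ∃ a : kˣ, χ a ≠ 1 := by
    by_contra h
    push Not at h
    exact hχ (MulChar.eq_one_iff.2 h)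
  obtain ⟨u, hu, hua⟩ := exists_unit_norm D₀ hD hsq hdeg (a : k) a.ne_zero
  have h1 := sum_mon_eq_zero D₀ hD (fun x => χ (Algebra.norm k x))
    (fun x y => by rw [map_mul, map_mul]) u hu (by rw [hua]; exact ha) m hm
  have h2 : S (hf χ c D₀) m = χ ((c * (-1) ^ D₀.natDegree) ^ m) *
      ∑ᶠ (g : k[X]) (_ : g ∈ {g : k[X] | g.Monic ∧ g.natDegree = m}),
        χ (Algebra.norm k (AdjoinRoot.mk D₀ g)) := by
    rw [S, finsum_mem_eq_finite_toFinset_sum _ (finite_mon m),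
      finsum_mem_eq_finite_toFinset_sum _ (finite_mon m), Finset.mul_sum]
    refine Finset.sum_congr rfl fun g hg => ?_
    rw [Set.Finite.mem_toFinset] at hg
    unfold hf nrm
    rw [hg.2, map_mul]
  rw [h2, h1, mul_zero]

theorem S_twist [Finite k] (h : k[X] → ℂ) (β : ℂ) (m : ℕ) :
    S (fun g => h g * β ^ g.natDegree) m = S h m * β ^ m := by
  rw [S, S, finsum_mem_eq_finite_toFinset_sum _ (finite_mon m),
      finsum_mem_eq_finite_toFinset_sum _ (finite_mon m), Finset.sum_mul]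
  refine Finset.sum_congr rfl fun g hg => ?_
  rw [Set.Finite.mem_toFinset] at hg
  rw [hg.2]

theorem S_zero [Finite k] {R : Type} [CommRing R] {h : k[X] → R} (hh : CM h) : S h 0 = 1 := by
  have h1 : {g : k[X] | g.Monic ∧ g.natDegree = 0} = {1} := by
    ext g
    constructor
    · rintro ⟨h1, h2⟩
      exact h1.natDegree_eq_zero.1 h2
    · rintro rfl
      exact ⟨monic_one, natDegree_one⟩
  rw [S, h1, finsum_mem_singleton, hh.1]

theorem S_map [Finite k] {R R' : Type} [CommRing R] [CommRing R'] (f : R →+* R') (h : k[X] → R)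
    (m : ℕ) : f (S h m) = S (fun g => f (h g)) m := by
  rw [S, S, finsum_mem_eq_finite_toFinset_sum _ (finite_mon m),
      finsum_mem_eq_finite_toFinset_sum _ (finite_mon m), map_sum]

/-- the L-polynomial of a character and a number -/
noncomputable def Lp (χ : MulChar k ℂ) (c : k) (D₀ : k[X]) (β : ℂ) : ℂ[X] :=
  ∑ m ∈ Finset.range D₀.natDegree, C (S (hf χ c D₀) m * β ^ m) * X ^ m

theorem coeff_Lp [Finite k] (χ : MulChar k ℂ) (hχ : χ ≠ 1) (c : k) (D₀ : k[X])
    (hD : D₀.Monic) (hsq : Squarefree D₀) (hdeg : 0 < D₀.natDegree) (β : ℂ) (m : ℕ) :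
    (Lp χ c D₀ β).coeff m = S (hf χ c D₀) m * β ^ m := by
  unfold Lp
  rw [finsetSum_coeff]
  simp only [coeff_C_mul, coeff_X_pow, mul_ite, mul_one, mul_zero]
  rw [Finset.sum_ite_eq]
  split_ifs with h
  · rfl
  · rw [Finset.mem_range, not_lt] at h
    rw [S_hf_eq_zero χ hχ c D₀ hD hsq hdeg m h, zero_mul]

theorem Lp_ne_zero [Finite k] (χ : MulChar k ℂ) (hχ : χ ≠ 1) (c : k) (D₀ : k[X])
    (hD : D₀.Monic) (hsq : Squarefree D₀) (hdeg : 0 < D₀.natDegree) (β : ℂ) :
    Lp χ c D₀ β ≠ 0 := by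
  intro h
  have h1 := coeff_Lp χ hχ c D₀ hD hsq hdeg β 0
  rw [h, coeff_zero, S_zero (hf_CM χ c D₀), pow_zero, mul_one] at h1
  exact zero_ne_one h1

/-- an element of `ℓ`-power order is one in characteristic `ℓ` -/
theorem eq_one_of_pow {κ : Type} [Field κ] (ℓ : ℕ) [Fact ℓ.Prime] [CharP κ ℓ] (y : κ) (a : ℕ)
    (h : y ^ ℓ ^ a = 1) : y = 1 := by
  have h1 : (y - 1) ^ ℓ ^ a = 0 := by
    rw [sub_pow_char_pow, h, one_pow, sub_self]
  exact sub_eq_zero.1 (pow_eq_zero_iff (pow_ne_zero _ (Fact.out : ℓ.Prime).ne_zero) |>.1 h1)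

open Classical in
theorem rm_le [Finite k] {κ : Type} [Field κ] (ℓ : ℕ) [Fact ℓ.Prime] [CharP κ ℓ]
    (φ : AI →+* κ) (χ : MulChar k ℂ) (hχ : χ ≠ 1) (a : ℕ) (hχa : χ ^ ℓ ^ a = 1) (c : k)
    (hc : c ≠ 0) (D₀ : k[X]) (hD : D₀.Monic) (hsq : Squarefree D₀) (hdeg : 0 < D₀.natDegree)
    (N : ℕ) (hfac : ∀ P : k[X], P.Monic → Irreducible P → P ∣ D₀ →
      Nat.Coprime P.natDegree (ℓ * N))
    (β : AI) (hβ0 : (β : ℂ) ≠ 0) (hβN : φ β ^ N = 1) (i : ℕ) :
    (Lp χ c D₀ β).rootMultiplicity (((Nat.card k : ℂ)) ^ i)⁻¹ ≤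
      if φ β = 1 then {P : k[X] | P.Monic ∧ Irreducible P ∧ P ∣ D₀}.ncard - 1 else 0 := by
  letI : Fintype k := Fintype.ofFinite k
  have hℓ : ℓ.Prime := Fact.out
  -- `q = 1` in `κ`
  have hqκ : (Nat.card k : κ) = 1 := by
    have h1 : orderOf χ ∣ ℓ ^ a := orderOf_dvd_of_pow_eq_one hχa
    obtain ⟨b, hb, h2⟩ := (Nat.dvd_prime_pow hℓ).1 h1
    have hb0 : b ≠ 0 := by
      rintro rfl
      rw [pow_zero, orderOf_eq_one_iff] at h2
      exact hχ h2
    have h3 : ℓ ∣ Fintype.card k - 1 :=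
      ((dvd_pow_self ℓ hb0).trans (dvd_of_eq h2.symm)).trans
        (MulChar.orderOf_dvd_card_sub_one _ χ)
    have h4 : ((Fintype.card k - 1 : ℕ) : κ) = 0 := (CharP.cast_eq_zero_iff κ ℓ _).2 h3
    rw [Nat.cast_sub Fintype.card_pos, Nat.cast_one, sub_eq_zero] at h4
    rw [Nat.card_eq_fintype_card, h4]
  -- the function with values in `AI`
  let hA : k[X] → AI := fun g => ⟨hf χ c D₀ g, isIntegral_mulChar χ _⟩
  have hAcoe : ∀ g, ((hA g : AI) : ℂ) = hf χ c D₀ g := fun _ => rfl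
  have hACM : CM hA := by
    constructor
    · apply Subtype.ext
      exact (hf_CM χ c D₀).1
    · intro g g' hg hg'
      apply Subtype.ext
      exact (hf_CM χ c D₀).2 g g' hg hg'
  have hS : ∀ m, ((S hA m : AI) : ℂ) = S (hf χ c D₀) m := fun m =>
    S_map (integralClosure ℤ ℂ).val.toRingHom hA m
  let hκ : k[X] → κ := fun g => φ (hA g)
  have hκCM : CM hκ := by
    constructor
    · change φ (hA 1) = 1
      rw [hACM.1, map_one]
    · intro g g' hg hg'
      change φ (hA (g * g')) = _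
      rw [hACM.2 g g' hg hg', map_mul]
  have hSκ : ∀ m, φ (S hA m) = S hκ m := fun m => S_map φ hA m
  -- the primes which divide `D₀`
  have hfinZ : {P : MI k | P.1 ∣ D₀}.Finite := by
    apply (finite_deg_le (F := k) D₀.natDegree).subset
    intro P hP
    exact natDegree_le_of_dvd hP hD.ne_zero
  let Z : Finset (MI k) := hfinZ.toFinset
  have hZcard : Z.card = {P : k[X] | P.Monic ∧ Irreducible P ∧ P ∣ D₀}.ncard := by
    rw [← Set.ncard_coe_finset, ← Set.ncard_image_of_injective _ Subtype.val_injective]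
    congr 1
    ext P
    constructor
    · rintro ⟨Q, hQ, rfl⟩
      rw [Finset.mem_coe, Set.Finite.mem_toFinset] at hQ
      exact ⟨Q.2.1, Q.2.2, hQ⟩
    · rintro ⟨h1, h2, h3⟩
      refine ⟨⟨P, h1, h2⟩, ?_, rfl⟩
      rw [Finset.mem_coe, Set.Finite.mem_toFinset]
      exact h3
  have hZ0 : ∀ P ∈ Z, hκ P.1 = 0 := by
    intro P hP
    rw [Set.Finite.mem_toFinset] at hP
    have hP' : P.1 ∣ D₀ := hP
    have h1 : hA P.1 = 0 := by
      apply Subtype.ext
      rw [hAcoe, ← hf_prime χ c D₀ P.1 hD P.2.1]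
      have h2 : nrm P.1 (C c * D₀) = 0 := by
        unfold nrm
        rw [(AdjoinRoot.mk_eq_zero).2 (hP'.mul_left _)]
        haveI : Fact (Irreducible P.1) := ⟨P.2.2⟩
        haveI : Module.Finite k (AdjoinRoot P.1) := P.2.1.finite_adjoinRoot
        exact Algebra.norm_zero
      rw [h2, MulChar.map_zero]
      rfl
    change φ (hA P.1) = 0
    rw [h1, map_zero]
  have hZ1 : ∀ P ∉ Z, hκ P.1 = 1 := by
    intro P hP
    rw [Set.Finite.mem_toFinset] at hP
    have hP' : ¬ P.1 ∣ D₀ := hP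
    apply eq_one_of_pow ℓ _ a
    change φ (hA P.1) ^ ℓ ^ a = 1
    rw [← map_pow]
    have h1 : hA P.1 ^ ℓ ^ a = 1 := by
      apply Subtype.ext
      rw [SubmonoidClass.coe_pow, hAcoe, ← hf_prime χ c D₀ P.1 hD P.2.1]
      haveI : Fact (Irreducible P.1) := ⟨P.2.2⟩
      haveI : Module.Finite k (AdjoinRoot P.1) := P.2.1.finite_adjoinRoot
      have h2 : nrm P.1 (C c * D₀) ≠ 0 := by
        unfold nrm
        rw [Algebra.norm_ne_zero_iff, Ne, AdjoinRoot.mk_eq_zero]
        intro h3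
        rcases P.2.2.prime.dvd_or_dvd h3 with h4 | h4
        · have h5 : IsUnit (C c : k[X]) := isUnit_C.2 (isUnit_iff_ne_zero.2 hc)
          exact P.2.2.not_isUnit (isUnit_of_dvd_unit h4 h5)
        · exact hP' h4
      have h6 := MulChar.pow_apply_coe χ (ℓ ^ a) (Units.mk0 _ h2)
      rw [hχa, MulChar.one_apply_coe] at h6
      exact h6.symm
    rw [h1, map_one]
  have hgen := gen_identity hκ hκCM hqκ Z hZ0 hZ1
  -- the reduction of the L-polynomial
  set n := D₀.natDegree with hn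
  let Lκ : κ[X] := ∑ m ∈ Finset.range n, C (S hκ m) * X ^ m
  have hSA0 : ∀ m, n ≤ m → S hA m = 0 := by
    intro m hm
    apply Subtype.ext
    rw [hS m, S_hf_eq_zero χ hχ c D₀ hD hsq hdeg m hm]
    rfl
  have hLκ : ((Lκ : κ[X]) : PowerSeries κ) = PowerSeries.mk (S hκ) := by
    ext m
    rw [coeff_coe, PowerSeries.coeff_mk]
    change (∑ m ∈ Finset.range n, C (S hκ m) * X ^ m : κ[X]).coeff m = _
    rw [finsetSum_coeff]
    simp only [coeff_C_mul, coeff_X_pow, mul_ite, mul_one, mul_zero]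
    rw [Finset.sum_ite_eq]
    split_ifs with h
    · rfl
    · rw [Finset.mem_range, not_lt] at h
      rw [← hSκ m, hSA0 m h, map_zero]
  have hpoly : (1 - X) * Lκ = ∏ P ∈ Z, (1 - X ^ P.1.natDegree) := by
    apply Polynomial.coe_injective
    rw [Polynomial.coe_mul, hLκ, Polynomial.coe_sub, Polynomial.coe_one, Polynomial.coe_X, hgen,
      ← Polynomial.coeToPowerSeries.ringHom_apply, map_prod]
    refine Finset.prod_congr rfl fun P _ => ?_
    rw [Polynomial.coeToPowerSeries.ringHom_apply]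
    push_cast
    rfl
  obtain ⟨hLκ0, hbound⟩ := rm_prod Z (fun P => P.1.natDegree) ℓ N hℓ
    (fun P hP => hfac P.1 P.2.1 P.2.2 (by rw [Set.Finite.mem_toFinset] at hP; exact hP))
    (φ β) hβN Lκ hpoly
  rw [← hZcard]
  refine le_trans ?_ hbound
  -- the comparison of multiplicities
  set s : AI := (Nat.card k : AI) ^ i with hs
  have hs0 : (s : ℂ) ≠ 0 := by
    rw [hs]
    push_cast
    exact pow_ne_zero _ (by exact_mod_cast Nat.card_pos.ne')
  have hscoe : (s : ℂ) = (Nat.card k : ℂ) ^ i := by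
    rw [hs]
    push_cast
    rfl
  have hφs : φ s = 1 := by
    rw [hs, map_pow, map_natCast, hqκ, one_pow]
  set t₀ : ℂ := ((Nat.card k : ℂ) ^ i)⁻¹ with ht₀
  have ht₀s : t₀ = (s : ℂ)⁻¹ := by rw [ht₀, hscoe]
  let LA : AI[X] := ∑ m ∈ Finset.range n, C (S hA m * s ^ (n - 1 - m)) * X ^ m
  have hLAκ : LA.map φ = Lκ := by
    change (∑ m ∈ Finset.range n, C (S hA m * s ^ (n - 1 - m)) * X ^ m : AI[X]).map φ = _
    rw [Polynomial.map_sum]
    refine Finset.sum_congr rfl fun m _ => ?_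
    rw [Polynomial.map_mul, Polynomial.map_pow, map_C, map_X, map_mul, map_pow, hφs, one_pow,
      mul_one, hSκ]
  have hLAC : LA.map (algebraMap AI ℂ) =
      C ((s : ℂ) ^ (n - 1)) * (Lp χ c D₀ β).comp (C (t₀ / β) * X) := by
    change (∑ m ∈ Finset.range n, C (S hA m * s ^ (n - 1 - m)) * X ^ m : AI[X]).map _ = _
    unfold Lp
    rw [Polynomial.map_sum, Polynomial.sum_comp, Finset.mul_sum]
    refine Finset.sum_congr rfl fun m hm => ?_
    rw [Finset.mem_range] at hm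
    rw [Polynomial.map_mul, Polynomial.map_pow, map_C, map_X, mul_comp, C_comp, pow_comp, X_comp,
      mul_pow, ← C_pow, ← mul_assoc, ← mul_assoc, ← C_mul, ← C_mul]
    congr 2
    rw [map_mul, map_pow]
    change ((S hA m : AI) : ℂ) * (s : ℂ) ^ (n - 1 - m) = _
    rw [hS m, ht₀s]
    have h2 : (s : ℂ) ^ (n - 1) = (s : ℂ) ^ (n - 1 - m) * (s : ℂ) ^ m := by
      rw [← pow_add]
      congr 1
      omega
    have hsm : (s : ℂ) ^ m ≠ 0 := pow_ne_zero _ hs0
    have hβm : (β : ℂ) ^ m ≠ 0 := pow_ne_zero _ hβ0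
    rw [h2, div_pow, inv_pow]
    field_simp
  set M := (Lp χ c D₀ β).rootMultiplicity t₀ with hM
  have h1 : (X - C t₀) ^ M ∣ Lp χ c D₀ β := pow_rootMultiplicity_dvd _ _
  have h2 : (X - C (β : ℂ)) ^ M ∣ LA.map (algebraMap AI ℂ) := by
    rw [hLAC]
    obtain ⟨R, hR⟩ := h1
    have h3 : (X - C t₀ : ℂ[X]).comp (C (t₀ / β) * X) = C (t₀ / β) * (X - C (β : ℂ)) := by
      rw [sub_comp, X_comp, C_comp, mul_sub, ← C_mul, div_mul_cancel₀ _ hβ0]
    rw [hR, mul_comp, pow_comp, h3, mul_pow]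
    refine Dvd.intro (C ((s : ℂ) ^ (n - 1)) * C (t₀ / β) ^ M * R.comp (C (t₀ / β) * X)) ?_
    ring
  have h3 : (X - C β : AI[X]) ^ M ∣ LA := by
    rw [← Polynomial.map_dvd_map (algebraMap AI ℂ) Subtype.val_injective
      ((monic_X_sub_C β).pow M), Polynomial.map_pow, Polynomial.map_sub, map_X, map_C]
    exact h2
  have h4 : (X - C (φ β) : κ[X]) ^ M ∣ Lκ := by
    rw [← hLAκ]
    have := Polynomial.map_dvd φ h3
    rwa [Polynomial.map_pow, Polynomial.map_sub, map_X, map_C] at this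
  exact (le_rootMultiplicity_iff hLκ0).2 h4

end Pool.Agent.J4H10.Tw
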