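import Pool.Agent.J4H10.Tw.Euler
import Pool.Agent.N134.PX.Norm

/-!
# The reciprocity law for power residue symbols of polynomials over a finite field
-/

set_option autoImplicit false
set_option linter.unusedSectionVars false
set_option linter.style.haveILetI false

open Polynomial

namespace Pool.Agent.J4H10.Tw

open Pool.Agent.W313.Hyp

variable {k : Type} [Field k]

/-- the norm of the value of `D` at `P` -/
noncomputable def nrm (P D : k[X]) : k := Algebra.norm k (AdjoinRoot.mk P D)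

theorem nrm_eq_resultant (P D : k[X]) (hP : P.Monic) (hD : D.Monic) :
    nrm P D = resultant P D := by
  have h1 := Pool.Agent.N134.PX.norm_pb (AdjoinRoot.powerBasis hP.ne_zero) D hD
  rw [AdjoinRoot.powerBasis_gen, AdjoinRoot.aeval_eq, AdjoinRoot.minpoly_root hP.ne_zero,
    hP.leadingCoeff, inv_one, C_1, mul_one] at h1
  exact h1

theorem nrm_comm (P D : k[X]) (hP : P.Monic) (hD : D.Monic) :
    nrm P D = (-1) ^ (P.natDegree * D.natDegree) * nrm D P := by
  rw [nrm_eq_resultant P D hP hD, nrm_eq_resultant D P hD hP, resultant_comm]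

theorem nrm_mul_right (P D D' : k[X]) : nrm P (D * D') = nrm P D * nrm P D' := by
  unfold nrm
  rw [map_mul, map_mul]

theorem nrm_one_right (P : k[X]) : nrm P 1 = 1 := by
  unfold nrm
  rw [map_one, map_one]

theorem nrm_mul_left (P P' D : k[X]) (hP : P.Monic) (hP' : P'.Monic) (hD : D.Monic) :
    nrm (P * P') D = nrm P D * nrm P' D := by
  rw [nrm_eq_resultant _ _ (hP.mul hP') hD, nrm_eq_resultant _ _ hP hD,
    nrm_eq_resultant _ _ hP' hD, ← resultant_mul_left P P' D D.natDegree le_rfl,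
    hP.natDegree_mul hP']

theorem nrm_C (P : k[X]) (hP : P.Monic) (c : k) : nrm P (C c) = c ^ P.natDegree := by
  unfold nrm
  have h1 : AdjoinRoot.mk P (C c) = algebraMap k (AdjoinRoot P) c := rfl
  rw [h1, Algebra.norm_algebraMap_of_basis (AdjoinRoot.powerBasis hP.ne_zero).basis,
    Fintype.card_fin, AdjoinRoot.powerBasis_dim]

/-- The monic polynomials of degree `m ≥ deg D` and the pairs of a monic polynomial and a residue
class. -/
noncomputable def divEquiv (D : k[X]) (hD : D.Monic) (m : ℕ) (hm : D.natDegree ≤ m) :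
    Mon k m ≃ Mon k (m - D.natDegree) × AdjoinRoot D where
  toFun g := (⟨g.1 /ₘ D, by
    refine ⟨?_, ?_⟩
    · rw [Monic, leadingCoeff_divByMonic_of_monic hD]
      · exact g.2.1
      · rw [degree_eq_natDegree hD.ne_zero, degree_eq_natDegree g.2.1.ne_zero, g.2.2]
        exact_mod_cast hm
    · rw [natDegree_divByMonic _ hD, g.2.2]⟩, AdjoinRoot.mk D g.1)
  invFun x := ⟨AdjoinRoot.modByMonicHom hD x.2 + D * x.1.1, by
    have h1 : (AdjoinRoot.modByMonicHom hD x.2).degree < D.degree := by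
      obtain ⟨y, hy⟩ := AdjoinRoot.mk_surjective x.2
      rw [← hy, AdjoinRoot.modByMonicHom_mk]
      exact degree_modByMonic_lt _ hD
    have h2 : (D * x.1.1).Monic := hD.mul x.1.2.1
    have h3 : (D * x.1.1).natDegree = m := by
      rw [hD.natDegree_mul x.1.2.1, x.1.2.2]
      omega
    have h4 : (AdjoinRoot.modByMonicHom hD x.2).degree < (D * x.1.1).degree := by
      refine h1.trans_le ?_
      rw [degree_eq_natDegree hD.ne_zero, degree_eq_natDegree h2.ne_zero, h3]
      exact_mod_cast hm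
    exact ⟨h2.add_of_right h4, by rw [natDegree_add_eq_right_of_degree_lt h4, h3]⟩⟩
  left_inv g := by
    apply Subtype.ext
    change AdjoinRoot.modByMonicHom hD (AdjoinRoot.mk D g.1) + D * (g.1 /ₘ D) = g.1
    rw [AdjoinRoot.modByMonicHom_mk]
    exact modByMonic_add_div g.1 D
  right_inv x := by
    have h1 : (AdjoinRoot.modByMonicHom hD x.2).degree < D.degree := by
      obtain ⟨y, hy⟩ := AdjoinRoot.mk_surjective x.2
      rw [← hy, AdjoinRoot.modByMonicHom_mk]
      exact degree_modByMonic_lt _ hD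
    have h2 := div_modByMonic_unique x.1.1 (AdjoinRoot.modByMonicHom hD x.2) hD ⟨rfl, h1⟩
    refine Prod.ext (Subtype.ext h2.1) ?_
    change AdjoinRoot.mk D (AdjoinRoot.modByMonicHom hD x.2 + D * x.1.1) = x.2
    rw [map_add, map_mul, AdjoinRoot.mk_self, zero_mul, add_zero]
    exact AdjoinRoot.mk_leftInverse hD x.2

theorem finite_adjoinRoot [Finite k] (D : k[X]) (hD : D.Monic) : Finite (AdjoinRoot D) := by
  haveI : Module.Finite k (AdjoinRoot D) := hD.finite_adjoinRoot
  exact Module.finite_of_finite k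

/-- the sum over the monic polynomials of degree at least that of `D` -/
theorem sum_mon_eq_zero [Finite k] (D : k[X]) (hD : D.Monic) (f : AdjoinRoot D → ℂ)
    (hf : ∀ x y, f (x * y) = f x * f y) (u : AdjoinRoot D) (hu : IsUnit u) (hfu : f u ≠ 1)
    (m : ℕ) (hm : D.natDegree ≤ m) :
    ∑ᶠ (g : k[X]) (_ : g ∈ {g : k[X] | g.Monic ∧ g.natDegree = m}), f (AdjoinRoot.mk D g) = 0 := by
  classical
  haveI := finite_adjoinRoot D hD
  letI : Fintype (AdjoinRoot D) := Fintype.ofFinite _
  haveI : Finite (Mon k m) := finite_mon m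
  haveI : Finite (Mon k (m - D.natDegree)) := finite_mon _
  letI : Fintype (Mon k m) := Fintype.ofFinite _
  letI : Fintype (Mon k (m - D.natDegree)) := Fintype.ofFinite _
  have h1 : ∑ᶠ (g : k[X]) (_ : g ∈ {g : k[X] | g.Monic ∧ g.natDegree = m}),
      f (AdjoinRoot.mk D g) = ∑ g : Mon k m, f (AdjoinRoot.mk D g.1) := by
    rw [← finsum_subtype_eq_finsum_cond]
    exact finsum_eq_sum_of_fintype (fun g : Mon k m => f (AdjoinRoot.mk D g.1))
  have h2 : ∑ g : Mon k m, f (AdjoinRoot.mk D g.1) =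
      ∑ x : Mon k (m - D.natDegree) × AdjoinRoot D, f x.2 :=
    Fintype.sum_equiv (divEquiv D hD m hm) _ _ fun g => rfl
  have h3 : ∑ x : AdjoinRoot D, f x = 0 := by
    obtain ⟨v, rfl⟩ := hu
    have h4 : ∑ x : AdjoinRoot D, f x = f v * ∑ x : AdjoinRoot D, f x := by
      conv_lhs => rw [← Equiv.sum_comp (Units.mulLeft v)]
      rw [Finset.mul_sum]
      exact Finset.sum_congr rfl fun x _ => hf _ _
    have h5 : (1 - f v) * ∑ x : AdjoinRoot D, f x = 0 := by linear_combination h4
    rcases mul_eq_zero.1 h5 with h6 | h6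
    · exact absurd (sub_eq_zero.1 h6).symm hfu
    · exact h6
  rw [h1, h2, Fintype.sum_prod_type]
  simp only [h3, Finset.sum_const_zero]

/-- For squarefree `D` there is a unit modulo `D` of any given norm. -/
theorem exists_unit_norm [Finite k] (D : k[X]) (hD : D.Monic) (hsq : Squarefree D)
    (hdeg : 0 < D.natDegree) (a : k) (ha : a ≠ 0) :
    ∃ u : AdjoinRoot D, IsUnit u ∧ Algebra.norm k u = a := by
  obtain ⟨P, hPm, hPi, hPD⟩ := Polynomial.exists_monic_irreducible_factor D (by
    intro h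
    rw [hD.isUnit_iff.1 h] at hdeg
    simp at hdeg)
  obtain ⟨Q, rfl⟩ := hPD
  have hQ : Q.Monic := Polynomial.Monic.of_mul_monic_left hPm hD
  have hcop : IsCoprime P Q := by
    rw [hPi.coprime_iff_not_dvd]
    rintro ⟨R, rfl⟩
    apply hPi.not_isUnit
    exact hsq P ⟨R, by ring⟩
  haveI : Fact (Irreducible P) := ⟨hPi⟩
  haveI := finite_adjoinRoot P hPm
  obtain ⟨y, hy⟩ := FiniteField.norm_surjective k (AdjoinRoot P) a
  obtain ⟨z, rfl⟩ := AdjoinRoot.mk_surjective y
  obtain ⟨c, d, hcd⟩ := hcop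
  -- a polynomial which is `z` modulo `P` and `1` modulo `Q`
  let g₀ : k[X] := z * (d * Q) + c * P
  let g : k[X] := g₀ %ₘ (P * Q) + P * Q
  have hg0P : AdjoinRoot.mk P g₀ = AdjoinRoot.mk P z := by
    rw [AdjoinRoot.mk_eq_mk]
    refine ⟨c * (1 - z), ?_⟩
    have : g₀ = z * (d * Q) + c * P := rfl
    rw [this]
    linear_combination z * hcd
  have hg0Q : AdjoinRoot.mk Q g₀ = 1 := by
    rw [← map_one (AdjoinRoot.mk Q), AdjoinRoot.mk_eq_mk]
    refine ⟨d * (z - 1), ?_⟩
    have : g₀ = z * (d * Q) + c * P := rfl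
    rw [this]
    linear_combination hcd
  have hgD : g = g₀ + (P * Q) * (1 - g₀ /ₘ (P * Q)) := by
    have h1 := modByMonic_add_div g₀ (P * Q)
    change g₀ %ₘ (P * Q) + P * Q = _
    linear_combination h1
  have hgm : g.Monic := by
    apply hD.add_of_right
    exact degree_modByMonic_lt _ hD
  have hgP : AdjoinRoot.mk P g = AdjoinRoot.mk P z := by
    rw [hgD, map_add, map_mul, map_mul, AdjoinRoot.mk_self, zero_mul, zero_mul, add_zero, hg0P]
  have hgQ : AdjoinRoot.mk Q g = 1 := by
    rw [hgD, map_add, map_mul, map_mul, AdjoinRoot.mk_self, mul_zero, zero_mul, add_zero, hg0Q]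
  have hnorm : Algebra.norm k (AdjoinRoot.mk (P * Q) g) = a := by
    have h1 := nrm_mul_left P Q g hPm hQ hgm
    unfold nrm at h1
    rw [h1, hgP, hy, hgQ, map_one, mul_one]
  refine ⟨AdjoinRoot.mk (P * Q) g, ?_, hnorm⟩
  have h1 : IsCoprime g P := by
    refine IsCoprime.symm ((hPi.coprime_iff_not_dvd).2 fun h => ?_)
    rw [← AdjoinRoot.mk_eq_zero, hgP] at h
    rw [h, Algebra.norm_zero] at hy
    exact ha hy.symm
  have h2 : IsCoprime g Q := by
    rw [← map_one (AdjoinRoot.mk Q), AdjoinRoot.mk_eq_mk] at hgQ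
    obtain ⟨t, ht⟩ := hgQ
    exact ⟨1, -t, by linear_combination ht⟩
  obtain ⟨x, y, hxy⟩ := h1.mul_right h2
  refine IsUnit.of_mul_eq_one (AdjoinRoot.mk (P * Q) x) ?_
  rw [← map_mul, ← map_one (AdjoinRoot.mk (P * Q)), AdjoinRoot.mk_eq_mk]
  exact ⟨-y, by linear_combination hxy⟩

end Pool.Agent.J4H10.Tw
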