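import Pool.Agent.J4H10.Tw.Recip

/-!
# The L-functions of the characters of order a power of `ℓ`, modulo `ℓ`
-/

set_option autoImplicit false
set_option linter.unusedSectionVars false
set_option linter.style.haveILetI false

open Polynomial

namespace Pool.Agent.J4H10.Tw

open Pool.Agent.W313.Hyp Pool.Agent.W343.BSD

section mod

variable {k : Type} [Field k] [Finite k] {κ : Type} [Field κ]

/-- The generating function of a multiplicative function with values zero and one. -/
theorem gen_identity (h : k[X] → κ) (hh : CM h) (hq : (Nat.card k : κ) = 1) (Z : Finset (MI k))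
    (hZ0 : ∀ P ∈ Z, h P.1 = 0) (hZ1 : ∀ P ∉ Z, h P.1 = 1) :
    (1 - PowerSeries.X : PowerSeries κ) * PowerSeries.mk (S h) =
      ∏ P ∈ Z, (1 - PowerSeries.X ^ P.1.natDegree) := by
  classical
  apply eq_of_mod
  intro N
  let A : Finset (MI k) := (finite_deg_le (F := k) N).toFinset ∪ Z
  have hA : ∀ P : MI k, P.1.natDegree ≤ N → P ∈ A := fun P hP =>
    Finset.mem_union_left _ (by rw [Set.Finite.mem_toFinset]; exact hP)
  have h1 := prod_mul_GH hh A
  have hone : CM (fun _ : k[X] => (1 : κ)) := ⟨rfl, fun _ _ _ _ => (one_mul 1).symm⟩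
  have h2 := prod_mul_GH hone A
  have h3 : (∏ P ∈ A, (1 - PowerSeries.C (1 : κ) * PowerSeries.X ^ P.1.natDegree)) =
      (∏ P ∈ A, (1 - PowerSeries.C (h P.1) * PowerSeries.X ^ P.1.natDegree)) *
        ∏ P ∈ Z, (1 - PowerSeries.X ^ P.1.natDegree) := by
    have h4 : ∏ P ∈ Z, (1 - PowerSeries.X ^ P.1.natDegree : PowerSeries κ) =
        ∏ P ∈ A, (if P ∈ Z then (1 - PowerSeries.X ^ P.1.natDegree) else 1) := by
      rw [Finset.prod_ite_mem, Finset.inter_eq_right.2 Finset.subset_union_right]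
    rw [h4, ← Finset.prod_mul_distrib]
    refine Finset.prod_congr rfl fun P _ => ?_
    split_ifs with hP
    · rw [hZ0 P hP, map_zero, map_one]
      ring
    · rw [hZ1 P hP, mul_one]
  set Q := ∏ P ∈ A, (1 - PowerSeries.C (h P.1) * PowerSeries.X ^ P.1.natDegree) with hQ
  set W := ∏ P ∈ Z, (1 - PowerSeries.X ^ P.1.natDegree : PowerSeries κ) with hW
  rw [h3] at h2
  have h5 : GH h A = GH (fun _ : k[X] => (1 : κ)) A * W := by
    calc GH h A = GH h A * (Q * W * GH (fun _ => 1) A) := by rw [h2, mul_one]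
      _ = (Q * GH h A) * (GH (fun _ => 1) A * W) := by ring
      _ = GH (fun _ => 1) A * W := by rw [h1, one_mul]
  have h6 : (PowerSeries.X : PowerSeries κ) ^ (N + 1) ∣ PowerSeries.mk (S h) - GH h A := by
    rw [PowerSeries.X_pow_dvd_iff]
    intro m hm
    rw [map_sub, PowerSeries.coeff_mk, coeff_GH h A N hA m (by omega), sub_self]
  have h7 : (PowerSeries.X : PowerSeries κ) ^ (N + 1) ∣
      (1 - PowerSeries.X) * GH (fun _ : k[X] => (1 : κ)) A - 1 := by
    rw [PowerSeries.X_pow_dvd_iff]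
    intro m hm
    rw [sub_mul, one_mul, map_sub, map_sub, coeff_GH _ A N hA m (by omega), S_one, hq, one_pow,
      PowerSeries.coeff_one]
    rcases m with _ | m
    · simp
    · rw [PowerSeries.coeff_succ_X_mul, coeff_GH _ A N hA m (by omega), S_one, hq, one_pow,
        if_neg (by omega)]
      ring
  have h8 : (1 - PowerSeries.X) * PowerSeries.mk (S h) - W =
      (1 - PowerSeries.X) * (PowerSeries.mk (S h) - GH h A) +
        ((1 - PowerSeries.X) * GH (fun _ : k[X] => (1 : κ)) A - 1) * W := by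
    rw [h5]
    ring
  rw [h8]
  exact dvd_add (h6.mul_left _) (h7.mul_right _)

end mod

section mult

variable {κ : Type} [Field κ]

theorem rm_one_sub (d : ℕ) (hd : (d : κ) ≠ 0) : (1 - X ^ d : κ[X]).rootMultiplicity 1 = 1 := by
  have hd0 : d ≠ 0 := by
    rintro rfl
    exact hd Nat.cast_zero
  have h0 : (1 - X ^ d : κ[X]) ≠ 0 := by
    intro h
    have h1 := congrArg (coeff · d) h
    simp [coeff_one, hd0] at h1
  apply le_antisymm
  · by_contra hlt
    rw [not_le] at hlt
    have h1 : 1 < (1 - X ^ d : κ[X]).rootMultiplicity 1 := hlt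
    rw [one_lt_rootMultiplicity_iff_isRoot h0] at h1
    have h2 := h1.2
    rw [IsRoot.def, derivative_sub, derivative_one, derivative_X_pow, zero_sub, eval_neg,
      eval_mul, eval_C, eval_pow, eval_X, one_pow, mul_one, neg_eq_zero] at h2
    exact hd h2
  · rw [Nat.one_le_iff_ne_zero, Ne, rootMultiplicity_eq_zero_iff]
    intro h
    exact h0 (h (by simp [IsRoot.def]))

open Classical in
/-- The multiplicity of a root of unity of order prime to the degrees. -/
theorem rm_prod {ι : Type*} (Z : Finset ι) (d : ι → ℕ) (ℓ N : ℕ)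
    [CharP κ ℓ] (hℓ : ℓ.Prime) (hd : ∀ P ∈ Z, Nat.Coprime (d P) (ℓ * N)) (y : κ) (hy : y ^ N = 1)
    (L : κ[X]) (hL : (1 - X) * L = ∏ P ∈ Z, (1 - X ^ d P)) :
    L ≠ 0 ∧ L.rootMultiplicity y ≤ if y = 1 then Z.card - 1 else 0 := by
  have hdc : ∀ P ∈ Z, (d P : κ) ≠ 0 := by
    intro P hP h
    rw [CharP.cast_eq_zero_iff κ ℓ] at h
    have h1 : ℓ ∣ Nat.gcd (d P) (ℓ * N) := Nat.dvd_gcd h (dvd_mul_right _ _)
    rw [(hd P hP).gcd_eq_one] at h1
    exact hℓ.one_lt.ne' (Nat.dvd_one.1 h1)
  have hne : ∀ P ∈ Z, (1 - X ^ d P : κ[X]) ≠ 0 := by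
    intro P hP h
    have hd0 : d P ≠ 0 := fun h0 => hdc P hP (by rw [h0, Nat.cast_zero])
    have h1 := congrArg (coeff · (d P)) h
    simp [coeff_one, hd0] at h1
  have hprod : (∏ P ∈ Z, (1 - X ^ d P) : κ[X]) ≠ 0 := Finset.prod_ne_zero_iff.2 hne
  have hL0 : L ≠ 0 := by
    rintro rfl
    rw [mul_zero] at hL
    exact hprod hL.symm
  refine ⟨hL0, ?_⟩
  have hX : (1 - X : κ[X]) ≠ 0 := by
    intro h
    rw [h, zero_mul] at hL
    exact hprod hL.symm
  have h1 : (1 - X : κ[X]).rootMultiplicity y + L.rootMultiplicity y =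
      ∑ P ∈ Z, (1 - X ^ d P : κ[X]).rootMultiplicity y := by
    rw [← rootMultiplicity_mul (mul_ne_zero hX hL0), hL]
    have h2 : ∀ T : Finset ι, T ⊆ Z → (∏ P ∈ T, (1 - X ^ d P) : κ[X]).rootMultiplicity y =
        ∑ P ∈ T, (1 - X ^ d P : κ[X]).rootMultiplicity y := by
      intro T
      induction T using Finset.induction_on with
      | empty => intro _; simp [rootMultiplicity_eq_zero_iff, IsRoot.def]
      | insert P T hP ih =>
        intro hT
        rw [Finset.prod_insert hP, Finset.sum_insert hP, rootMultiplicity_mul,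
          ih (fun x hx => hT (Finset.mem_insert_of_mem hx))]
        exact mul_ne_zero (hne P (hT (Finset.mem_insert_self _ _)))
          (Finset.prod_ne_zero_iff.2 fun x hx => hne x (hT (Finset.mem_insert_of_mem hx)))
    exact h2 Z (Finset.Subset.refl _)
  split_ifs with hy1
  · subst hy1
    have h2 := rm_one_sub (κ := κ) 1 (by simp)
    rw [pow_one] at h2
    rw [h2, Finset.sum_congr rfl fun P hP => rm_one_sub (d P) (hdc P hP), Finset.sum_const,
      smul_eq_mul, mul_one] at h1
    omega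
  · have h2 : ∀ P ∈ Z, (1 - X ^ d P : κ[X]).rootMultiplicity y = 0 := by
      intro P hP
      rw [rootMultiplicity_eq_zero_iff]
      intro h
      exfalso
      rw [IsRoot.def, eval_sub, eval_one, eval_pow, eval_X, sub_eq_zero] at h
      have h3 : orderOf y ∣ d P := orderOf_dvd_of_pow_eq_one h.symm
      have h4 : orderOf y ∣ ℓ * N := (orderOf_dvd_of_pow_eq_one hy).mul_left _
      have h5 := Nat.dvd_gcd h3 h4
      rw [(hd P hP).gcd_eq_one, Nat.dvd_one, orderOf_eq_one_iff] at h5
      exact hy1 h5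
    rw [Finset.sum_congr rfl h2, Finset.sum_const_zero] at h1
    omega

end mult

end Pool.Agent.J4H10.Tw
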